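import Pool.Agent.Lib.helper9.Freq

set_option autoImplicit false
open Filter Topology Finset Pool.Agent.Lib.helper9

namespace Pool.Agent.H.MP_219c9f_nt

/-- blocks of six digits -/
def blk (k r : ℕ) : ℕ :=
  if k ≤ 2 then (if r % 2 = 0 then 2 else 1)
  else if k = 3 then (if r % 3 = 0 then 3 else 1)
  else if k = 4 then (if r % 2 = 0 then 4 else 1)
  else if k = 10 ∨ k = 11 then (if r % 2 = 0 then 6 else k)
  else k

def dig (ω : ℕ → ℕ) (i : ℕ) : ℕ := blk (ω (i / 6)) (i % 6)

def Start (ω : ℕ → ℕ) (i : ℕ) : Prop :=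
  if ω (i / 6) % 2 = 1 ∧ 3 ≤ ω (i / 6) ∧ ω (i / 6) ≠ 11 then i % 3 = 0 else i % 2 = 0

theorem dig_pos (ω : ℕ → ℕ) (i : ℕ) : 1 ≤ dig ω i := by
  unfold dig blk; split_ifs <;> omega

theorem start_cases (ω : ℕ → ℕ) (i : ℕ) (h : Start ω i) :
    (∃ n, 1 ≤ n ∧ n ≠ 5 ∧ dig ω i = 2 * n ∧ Start ω (i + 2)) ∨
    (dig ω i = 3 ∧ dig ω (i + 1) = 1 ∧ dig ω (i + 2) = 1 ∧ Start ω (i + 3)) ∨
    (∃ n, 2 ≤ n ∧ n ≠ 5 ∧ dig ω i = 2 * n + 1 ∧ dig ω (i + 1) = 2 * n + 1 ∧ Start ω (i + 3)) := by
  unfold Start at h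
  split_ifs at h with hk
  · have e1 : (i + 1) / 6 = i / 6 := by omega
    have e2 : (i + 2) / 6 = i / 6 := by omega
    have hs : Start ω (i + 3) := by
      unfold Start
      split_ifs with h2
      · omega
      · by_cases e3 : (i + 3) / 6 = i / 6
        · rw [e3] at h2; exact absurd hk h2
        · omega
    right
    by_cases h3 : ω (i / 6) = 3
    · left
      refine ⟨?_, ?_, ?_, hs⟩
      · unfold dig blk; split_ifs <;> omega
      · unfold dig blk; rw [e1]; split_ifs <;> omega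
      · unfold dig blk; rw [e2]; split_ifs <;> omega
    · right
      refine ⟨ω (i / 6) / 2, by omega, by omega, ?_, ?_, hs⟩
      · unfold dig blk; split_ifs <;> omega
      · unfold dig blk; rw [e1]; split_ifs <;> omega
  · left
    have hs : Start ω (i + 2) := by
      unfold Start
      split_ifs with h2
      · by_cases e3 : (i + 2) / 6 = i / 6
        · rw [e3] at h2; exact absurd h2 hk
        · clear h2 hk
          have : i % 6 = 4 := by omega
          omega
      · omega
    refine ⟨dig ω i / 2, ?_, ?_, ?_, hs⟩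
    all_goals (unfold dig blk; split_ifs <;> omega)

theorem start_ge (ω : ℕ → ℕ) (i : ℕ) (h : Start ω i) : 2 ≤ dig ω i := by
  rcases start_cases ω i h with ⟨n, h⟩ | h | ⟨n, h⟩ <;> omega

theorem no_five (ω : ℕ → ℕ) (z : ℕ → ℝ) (hz : ∀ i, 1 < z i ∧ z i = dig ω i + (z (i + 1))⁻¹)
    (j : ℕ) : ∀ i, Start ω i → ⌊cq (z i / 2) j⌋ ≠ 5 := by
  have hz0 : ∀ i, 0 < z i := fun i => lt_trans zero_lt_one (hz i).1
  have hz2 : ∀ i, Start ω i → 1 < z i / 2 := by
    intro i hi
    have h1 : (2 : ℝ) ≤ dig ω i := by exact_mod_cast start_ge ω i hi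
    have h2 : 0 < (z (i + 1))⁻¹ := inv_pos.2 (hz0 _)
    linarith [(hz i).2]
  have dbl : ∀ i, 2 * z i = ((2 * dig ω i : ℕ) : ℤ) + (z (i + 1) / 2)⁻¹ := by
    intro i
    have := hz0 (i + 1)
    rw [(hz i).2]; push_cast; field_simp
  induction j using Nat.strong_induction_on with
  | _ j ih =>
  intro i hi
  have p1 := (hz (i + 1)).1
  have p2 := (hz (i + 2)).1
  rcases start_cases ω i hi with ⟨n, h1, h2, h3, h4⟩ | ⟨h1, h2, h3, h4⟩ | ⟨n, h1, h2, h3, h4, h5⟩
  · have s1 := cq_step (w := z i / 2) (w' := 2 * z (i + 1)) (c := n) (by linarith) (by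
      rw [(hz i).2, h3]; push_cast; field_simp)
    have s2 := cq_step (hz2 _ h4) (dbl (i + 1))
    rcases j with _ | _ | j
    · change ⌊z i / 2⌋ ≠ 5
      rw [s1.1]; omega
    · rw [cq_succ, s1.2.2]
      change ⌊2 * z (i + 1)⌋ ≠ 5
      rw [s2.1]; omega
    · rw [cq_succ, s1.2.2, cq_succ, s2.2.2]
      exact ih j (by omega) _ h4
  · have q0 : z (i + 1) + 1 ≠ 0 := by linarith
    have s1 := cq_step (w := z i / 2) (w' := 2 * z (i + 1) / (z (i + 1) + 1)) (c := 1)
      (by rw [lt_div_iff₀ (by linarith)]; linarith) (by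
      rw [(hz i).2, h1]; push_cast; field_simp; ring)
    have s2 := cq_step (w := 2 * z (i + 1) / (z (i + 1) + 1)) (w' := 2 * z (i + 2) + 1) (c := 1)
      (by linarith) (by
      rw [(hz (i + 1)).2, h2]; push_cast; field_simp; ring)
    have s3 := cq_step (w := 2 * z (i + 2) + 1) (c := 3) (hz2 _ h4) (by
      rw [dbl, h3]; push_cast; ring)
    rcases j with _ | _ | _ | j
    · change ⌊z i / 2⌋ ≠ 5
      rw [s1.1]; omega
    · rw [cq_succ, s1.2.2]
      change ⌊2 * z (i + 1) / (z (i + 1) + 1)⌋ ≠ 5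
      rw [s2.1]; omega
    · rw [cq_succ, s1.2.2, cq_succ, s2.2.2]
      change ⌊2 * z (i + 2) + 1⌋ ≠ 5
      rw [s3.1]; omega
    · rw [cq_succ, s1.2.2, cq_succ, s2.2.2, cq_succ, s3.2.2]
      exact ih j (by omega) _ h4
  · have q0 : z (i + 1) + 1 ≠ 0 := by linarith
    have q1 : z (i + 1) - 1 ≠ 0 := by linarith
    have hn : (2 : ℝ) ≤ n := by exact_mod_cast h1
    have q2 : 3 < z (i + 1) := by
      have h2 : 0 < (z (i + 1 + 1))⁻¹ := inv_pos.2 (hz0 _)
      rw [(hz (i + 1)).2, h4]; push_cast; linarith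
    have s1 := cq_step (w := z i / 2) (w' := 2 * z (i + 1) / (z (i + 1) + 1)) (c := n)
      (by rw [lt_div_iff₀ (by linarith)]; linarith) (by
      rw [(hz i).2, h3]; push_cast; field_simp; ring)
    have s2 := cq_step (w := 2 * z (i + 1) / (z (i + 1) + 1))
      (w' := (z (i + 1) + 1) / (z (i + 1) - 1)) (c := 1)
      (by rw [lt_div_iff₀ (by linarith)]; linarith) (by push_cast; field_simp; ring)
    have s3 := cq_step (w := (z (i + 1) + 1) / (z (i + 1) - 1)) (w' := (z (i + 1) - 1) / 2)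
      (c := 1) (by linarith) (by push_cast; field_simp; ring)
    have s4 := cq_step (w := (z (i + 1) - 1) / 2) (w' := 2 * z (i + 2)) (c := n) (by linarith) (by
      rw [(hz (i + 1)).2, h4]; push_cast; field_simp; ring)
    have s5 := cq_step (hz2 _ h5) (dbl (i + 2))
    rcases j with _ | _ | _ | _ | _ | j
    · change ⌊z i / 2⌋ ≠ 5
      rw [s1.1]; omega
    · rw [cq_succ, s1.2.2]
      change ⌊2 * z (i + 1) / (z (i + 1) + 1)⌋ ≠ 5
      rw [s2.1]; omega
    · rw [cq_succ, s1.2.2, cq_succ, s2.2.2]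
      change ⌊(z (i + 1) + 1) / (z (i + 1) - 1)⌋ ≠ 5
      rw [s3.1]; omega
    · rw [cq_succ, s1.2.2, cq_succ, s2.2.2, cq_succ, s3.2.2]
      change ⌊(z (i + 1) - 1) / 2⌋ ≠ 5
      rw [s4.1]; omega
    · rw [cq_succ, s1.2.2, cq_succ, s2.2.2, cq_succ, s3.2.2, cq_succ, s4.2.2]
      change ⌊2 * z (i + 2)⌋ ≠ 5
      rw [s5.1]; omega
    · rw [cq_succ, s1.2.2, cq_succ, s2.2.2, cq_succ, s3.2.2, cq_succ, s4.2.2, cq_succ, s5.2.2]
      exact ih j (by omega) _ h5

/-- Gauss-Kuzmin weights -/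
noncomputable def g (k : ℕ) : ℝ := Real.logb 2 (1 + 1 / ((k : ℝ) * ((k : ℝ) + 2)))

theorem g_nonneg (k : ℕ) : 0 ≤ g k :=
  Real.logb_nonneg (by norm_num) (le_add_of_nonneg_right (by positivity))

theorem g_sum : HasSum g 1 := by
  have h1 : ∀ n : ℕ, ∑ i ∈ range (n + 1), g i = Real.logb 2 (2 - 2 * (1 / ((n : ℝ) + 2))) := by
    intro n
    induction n with
    | zero => norm_num [g]
    | succ n ih =>
      rw [sum_range_succ, ih, g, ← Real.logb_mul]
      · congr 1; push_cast; field_simp; ring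
      · have : (2 : ℝ) - 2 * (1 / ((n : ℝ) + 2)) = 2 * (n + 1) / (n + 2) := by field_simp; ring
        rw [this]; positivity
      · positivity
  rw [hasSum_iff_tendsto_nat_of_nonneg g_nonneg, ← tendsto_add_atTop_iff_nat 1]
  simp only [h1]
  have h2 : Tendsto (fun n : ℕ => 1 / ((n : ℝ) + 2)) atTop (𝓝 0) :=
    tendsto_const_nhds.div_atTop (tendsto_natCast_atTop_atTop.atTop_add tendsto_const_nhds)
  have h3 := ((h2.const_mul 2).const_sub 2).logb (b := 2) (by norm_num)
  simpa using h3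

theorem g_one : g 1 = g 2 + 2 * g 3 + g 4 := by
  simp only [g, two_mul]
  rw [← Real.logb_mul (by positivity) (by positivity), ← Real.logb_mul (by positivity) (by positivity),
    ← Real.logb_mul (by positivity) (by positivity)]
  norm_num

theorem g_six : g 10 + g 11 ≤ g 6 := by
  simp only [g]
  rw [← Real.logb_mul (by positivity) (by positivity)]
  exact Real.logb_le_logb_of_le (by norm_num) (by positivity) (by norm_num)

/-- block frequencies -/
noncomputable def pi (k : ℕ) : ℝ :=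
  if k ≤ 1 then 0 else if k = 3 then 3 * g 3 else if k = 6 then g 6 - g 10 - g 11
  else if k = 2 ∨ k = 4 ∨ k = 10 ∨ k = 11 then 2 * g k else g k

theorem pi_nonneg (k : ℕ) : 0 ≤ pi k := by
  have := g_six
  have := g_nonneg k
  have := g_nonneg 3
  unfold pi; split_ifs <;> linarith

theorem pi_sum : HasSum pi 1 := by
  have h := (hasSum_nat_add_iff' 12).2 g_sum
  have e : (fun n => pi (n + 12)) = fun n => g (n + 12) := by
    funext n; unfold pi; split_ifs <;> first | omega | rfl
  rw [← hasSum_nat_add_iff' 12, e]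
  convert h using 2
  have h0 : g 0 = 0 := by simp [g]
  simp [sum_range_succ, pi, h0, g_one]
  ring

def cnt (k d : ℕ) : ℕ := ((range 6).filter fun r => blk k r = d).card

theorem cnt_big (k d : ℕ) (hk : 12 ≤ k) : cnt k d = if k = d then 6 else 0 := by
  have : ∀ r, blk k r = k := by intro r; unfold blk; split_ifs <;> omega
  simp only [cnt, this]
  split_ifs with h <;> simp [h]

theorem cnt_small (k d : ℕ) (hk : k < 12) (hd : 12 ≤ d) : cnt k d = 0 := by
  have : ∀ r, blk k r ≠ d := by intro r; unfold blk; split_ifs <;> omega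
  simp [cnt, this]

theorem mean (d : ℕ) (hd : 1 ≤ d) : ∑ k ∈ range (d + 12), (cnt k d : ℝ) * pi k = 6 * g d := by
  by_cases h : 12 ≤ d
  · rw [sum_eq_single d]
    · rw [cnt_big _ _ h, if_pos rfl]
      congr 1
      unfold pi; split_ifs <;> first | omega | rfl
    · intro k _ hk
      by_cases h2 : 12 ≤ k
      · rw [cnt_big _ _ h2, if_neg hk]; simp
      · rw [cnt_small _ _ (by omega) h]; simp
    · simp
  · rw [← sum_subset (s₁ := range 12) (range_subset_range.2 (by omega))]
    · have hc : ∀ k < 12, ∀ d < 12, cnt k d =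
          if k ≤ 2 then (if d = 2 ∨ d = 1 then 3 else 0)
          else if k = 3 then (if d = 3 then 2 else if d = 1 then 4 else 0)
          else if k = 4 then (if d = 4 ∨ d = 1 then 3 else 0)
          else if k = 10 ∨ k = 11 then (if d = 6 ∨ d = k then 3 else 0)
          else if d = k then 6 else 0 := by decide
      rw [sum_congr rfl fun k hk => by rw [hc k (mem_range.1 hk) d (by omega)]]
      have := g_one
      push Not at h
      interval_cases d <;> simp [sum_range_succ, pi] <;> linarith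
    · intro k _ hk
      rw [cnt_big _ _ (by simpa using hk), if_neg (by simp at hk; omega)]; simp

theorem blk_freq : ∃ ω : ℕ → ℕ, ∀ d, 1 ≤ d →
    Tendsto (fun n : ℕ => (∑ i ∈ range n, (cnt (ω i) d : ℝ)) / n) atTop (𝓝 (6 * g d)) := by
  obtain ⟨ω, hω⟩ := exists_seq_freq pi pi_nonneg pi_sum
  refine ⟨ω, fun d hd => ?_⟩
  rw [← mean d hd]
  have h := tendsto_finsetSum (range (d + 12)) fun k _ => (hω k).const_mul (cnt k d : ℝ)
  refine h.congr fun n => ?_
  simp only [← mul_div_assoc, ← sum_div, mul_sum]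
  rw [sum_comm]
  congr 1
  refine sum_congr rfl fun i _ => ?_
  simp only [mul_ite, mul_one, mul_zero, sum_ite_eq, mem_range]
  split_ifs with h
  · rfl
  · rw [cnt_big _ _ (by omega), if_neg (by omega)]; simp

theorem dig_freq : ∃ ω : ℕ → ℕ, ∀ d, 1 ≤ d →
    Tendsto (fun n : ℕ => (((range n).filter fun i => dig ω i = d).card : ℝ) / n) atTop (𝓝 (g d)) := by
  obtain ⟨ω, hω⟩ := blk_freq
  refine ⟨ω, fun d hd => ?_⟩
  let C : ℕ → ℕ := fun n => ((range n).filter fun i => dig ω i = d).card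
  have hC : ∀ m, C (6 * m) = ∑ i ∈ range m, cnt (ω i) d := by
    intro m
    induction m with
    | zero => simp [C]
    | succ m ih =>
      rw [sum_range_succ, ← ih]
      simp only [C, cnt, card_filter]
      rw [show 6 * (m + 1) = 6 * m + 6 by ring, sum_range_add]
      congr 1
      refine sum_congr rfl fun r hr => ?_
      have hr' := mem_range.1 hr
      have e1 : (6 * m + r) / 6 = m := by omega
      have e2 : (6 * m + r) % 6 = r := by omega
      simp only [dig, e1, e2]
  have hC2 : ∀ n, C (6 * (n / 6)) ≤ C n ∧ C n ≤ C (6 * (n / 6)) + 6 := by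
    intro n
    have e : C n = C (6 * (n / 6)) + ∑ r ∈ range (n % 6), if dig ω (6 * (n / 6) + r) = d then 1 else 0 := by
      simp only [C, card_filter]
      conv_lhs => rw [← Nat.div_add_mod n 6, sum_range_add]
    have : (∑ r ∈ range (n % 6), if dig ω (6 * (n / 6) + r) = d then 1 else 0) ≤ n % 6 := by
      rw [← card_filter]
      exact (card_filter_le _ _).trans (by simp)
    omega
  have t0 : Tendsto (fun n : ℕ => (6 : ℝ) / n) atTop (𝓝 0) :=
    tendsto_const_nhds.div_atTop tendsto_natCast_atTop_atTop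
  have t1 : Tendsto (fun n : ℕ => n / 6) atTop atTop :=
    tendsto_atTop.2 fun b => (eventually_ge_atTop (6 * b)).mono fun n hn => by omega
  have t2 : Tendsto (fun n : ℕ => ((n / 6 : ℕ) : ℝ) / n) atTop (𝓝 (1 / 6)) := by
    have a1 := (t0.const_mul (1 / 6)).const_sub (1 / 6)
    rw [mul_zero, sub_zero] at a1
    refine tendsto_of_tendsto_of_tendsto_of_le_of_le' a1 tendsto_const_nhds ?_ ?_
    · filter_upwards [eventually_gt_atTop 0] with n hn
      have hn' : (0 : ℝ) < n := by exact_mod_cast hn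
      have : n ≤ 6 * (n / 6) + 6 := by omega
      have : (n : ℝ) ≤ 6 * ((n / 6 : ℕ) : ℝ) + 6 := by exact_mod_cast this
      rw [le_div_iff₀ hn']
      field_simp
      linarith
    · filter_upwards [eventually_gt_atTop 0] with n hn
      have hn' : (0 : ℝ) < n := by exact_mod_cast hn
      have : 6 * (n / 6) ≤ n := by omega
      have : 6 * ((n / 6 : ℕ) : ℝ) ≤ n := by exact_mod_cast this
      rw [div_le_iff₀ hn']
      linarith
  have t3 := ((hω d hd).comp t1).mul t2
  have t4 : Tendsto (fun n : ℕ => (C (6 * (n / 6)) : ℝ) / n) atTop (𝓝 (g d)) := by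
    rw [show g d = 6 * g d * (1 / 6) by ring]
    refine t3.congr' ?_
    filter_upwards [eventually_ge_atTop 6] with n hn
    have : (0 : ℝ) < (n / 6 : ℕ) := by exact_mod_cast (by omega : 0 < n / 6)
    simp only [Function.comp, hC]
    push_cast
    field_simp
  have t5 := t4.add t0
  rw [add_zero] at t5
  refine tendsto_of_tendsto_of_tendsto_of_le_of_le t4 t5 (fun n => ?_) (fun n => ?_)
  · have : (C (6 * (n / 6)) : ℝ) ≤ C n := by exact_mod_cast (hC2 n).1
    exact div_le_div_of_nonneg_right this (by positivity)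
  · have : (C n : ℝ) ≤ C (6 * (n / 6)) + 6 := by exact_mod_cast (hC2 n).2
    simp only [← add_div]
    exact div_le_div_of_nonneg_right this (by positivity)

end Pool.Agent.H.MP_219c9f_nt
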